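import Pool.Agent.Helper71.PY.Goals

/-!
# Maximal integral lattices are free (packet BAS for MP_293fae_al)
-/

set_option autoImplicit false

namespace Pool.Agent.Helper79.PY

open Matrix Pool.Agent.Helper71.PY

theorem bas (h1 : G_XY) (h2 : G_FREE) : G_BAS := by
  intro R _ _ _ _ x y hreg K _ _ _ n d M hM
  classical
  have hx0 : x ≠ 0 := hreg.prx.ne_zero
  have hinj : Function.Injective (algebraMap R K) := IsFractionRing.injective R K
  have hxK : algebraMap R K x ≠ 0 := fun h => hx0 ((map_eq_zero_iff _ hinj).1 h)
  have hfin : Module.Finite R M := Module.Finite.iff_fg.2 hM.fg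
  have hsmul : ∀ (r : R) (v : Fin n → K), r • v = (algebraMap R K r) • v := by
    intro r v
    exact (algebraMap_smul K r v).symm
  have htf : ∀ (r : R) (m : M), r • m = 0 → r = 0 ∨ m = 0 := by
    intro r m h
    by_cases hr : r = 0
    · left
      exact hr
    · right
      have h3 : r • (m : Fin n → K) = 0 := by
        have := congrArg Subtype.val h
        simpa using this
      rw [hsmul] at h3
      rcases smul_eq_zero.1 h3 with h' | h'
      · exact absurd ((map_eq_zero_iff _ hinj).1 h') hr
      · exact Subtype.ext h'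
  have hfree : Module.Free R M := by
    refine h2 R x y hreg M htf ?_
    intro m m' h
    have hxz : x • ((algebraMap R K x)⁻¹ • (m : Fin n → K)) = m := by
      rw [hsmul, smul_smul, mul_inv_cancel₀ hxK, one_smul]
    have hyz : y • ((algebraMap R K x)⁻¹ • (m : Fin n → K)) = m' := by
      have h3 : y • (m : Fin n → K) = x • (m' : Fin n → K) := by
        have := congrArg Subtype.val h
        simpa using this
      rw [hsmul, smul_smul, mul_comm, ← smul_smul, ← hsmul, h3, hsmul, smul_smul,
        inv_mul_cancel₀ hxK, one_smul]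
    have hzM := h1 R x y hreg K n d M hM ((algebraMap R K x)⁻¹ • (m : Fin n → K))
      (by rw [hxz]; exact m.2) (by rw [hyz]; exact m'.2)
    exact ⟨⟨_, hzM⟩, Subtype.ext hxz.symm⟩
  -- a basis of `M` is a basis of `K^n`
  have hli : ∀ (m : ℕ) (b : Module.Basis (Fin m) R M),
      LinearIndependent K (fun i => (b i : Fin n → K)) := by
    intro m b
    have hR : LinearIndependent R (fun i => (b i : Fin n → K)) :=
      b.linearIndependent.map' M.subtype (Submodule.ker_subtype M)
    exact (LinearIndependent.iff_fractionRing R K).1 hR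
  have hsp : ∀ (m : ℕ) (b : Module.Basis (Fin m) R M),
      ⊤ ≤ Submodule.span K (Set.range (fun i => (b i : Fin n → K))) := by
    intro m b v _
    obtain ⟨r, hr0, hrv⟩ := hM.full v
    have hrK : algebraMap R K r ≠ 0 := fun h => hr0 ((map_eq_zero_iff _ hinj).1 h)
    have h3 : ((∑ i, b.repr ⟨r • v, hrv⟩ i • b i : M) : Fin n → K) = r • v :=
      congrArg Subtype.val (b.sum_repr ⟨r • v, hrv⟩)
    have h4 : ∑ i, (algebraMap R K (b.repr ⟨r • v, hrv⟩ i)) • (b i : Fin n → K)
        = (algebraMap R K r) • v := by
      rw [← hsmul]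
      refine Eq.trans ?_ h3
      rw [AddSubmonoidClass.coe_finsetSum]
      refine Finset.sum_congr rfl fun i _ => ?_
      rw [Submodule.coe_smul]
      exact (hsmul _ _).symm
    have h5 : v = (algebraMap R K r)⁻¹ •
        ∑ i, (algebraMap R K (b.repr ⟨r • v, hrv⟩ i)) • (b i : Fin n → K) := by
      rw [h4, smul_smul, inv_mul_cancel₀ hrK, one_smul]
    rw [h5]
    refine Submodule.smul_mem _ _ (Submodule.sum_mem _ fun i _ => Submodule.smul_mem _ _ ?_)
    exact Submodule.subset_span ⟨i, rfl⟩
  have hmn : Module.finrank R M = n := by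
    have b := Module.finBasis R M
    have h3 := Module.finrank_eq_card_basis (Module.Basis.mk (hli _ b) (hsp _ b))
    simpa using h3.symm
  have b : Module.Basis (Fin n) R M := (Module.finBasis R M).reindex (finCongr hmn)
  refine ⟨Matrix.of fun i j => (b j : Fin n → K) i, ?_, ?_⟩
  · have h3 : IsUnit (Matrix.of fun i j => (b j : Fin n → K) i) := by
      rw [← Matrix.linearIndependent_cols_iff_isUnit]
      exact hli n b
    exact (Matrix.isUnit_iff_isUnit_det _).1 h3 |>.ne_zero
  · have hmul : ∀ c : Fin n → R, (Matrix.of fun i j => (b j : Fin n → K) i) *ᵥ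
        (fun i => algebraMap R K (c i)) = ((∑ j, c j • b j : M) : Fin n → K) := by
      intro c
      funext i
      rw [AddSubmonoidClass.coe_finsetSum, Finset.sum_apply]
      change ∑ j, (b j : Fin n → K) i * algebraMap R K (c j) = _
      refine Finset.sum_congr rfl fun j _ => ?_
      rw [Submodule.coe_smul, hsmul, Pi.smul_apply, smul_eq_mul, mul_comm]
    intro v
    constructor
    · intro hv
      refine ⟨fun j => b.repr ⟨v, hv⟩ j, ?_⟩
      rw [hmul, b.sum_repr]
    · rintro ⟨c, rfl⟩
      rw [hmul]
      exact (∑ j, c j • b j : M).2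

end Pool.Agent.Helper79.PY
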